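import Pool.Agent.H18.N6F.Targets

/-!
# FLOC: the flag given by a common zero
-/

set_option autoImplicit false

open Polynomial NumberField IsDedekindDomain Matrix Pool.Agent.H32.QC Pool.Agent.H34.N6
  Pool.Agent.H18.N6F

namespace Pool.Agent.H4.N6F

theorem bil {F : Type*} [Field F] {m n : ℕ} (A : Matrix (Fin m) (Fin m) F)
    (B : Matrix (Fin m) (Fin n) F) (v w : Fin n → F) :
    v ⬝ᵥ ((Bᵀ * A * B) *ᵥ w) = (B *ᵥ v) ⬝ᵥ (A *ᵥ (B *ᵥ w)) := by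
  rw [← Matrix.mulVec_mulVec, ← Matrix.mulVec_mulVec, Matrix.dotProduct_mulVec,
    Matrix.vecMul_transpose]

/-- the matrix with the columns `e₀`, `e₁`, `u(z)` -/
def UU {F : Type*} [Field F] (d z : F) : Matrix (Fin 7) (Fin 3) F := fun r i => uv d z i r

theorem gm_eq {F : Type*} [Field F] (q : Matrix (Fin 7) (Fin 7) F) (d z : F) :
    gm q d z = (UU d z)ᵀ * q * UU d z := by
  ext i j
  have h1 := bil q (UU d z) (Pi.single i 1) (Pi.single j 1)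
  have h2 : ∀ k : Fin 3, UU d z *ᵥ Pi.single k 1 = uv d z k := by
    intro k
    rw [Matrix.mulVec_single_one]
    rfl
  rw [h2, h2, Matrix.mulVec_single_one, single_one_dotProduct] at h1
  exact h1.symm

theorem TI_one {F : Type*} [Field F] {n : ℕ} (A : Matrix (Fin n) (Fin n) F) :
    TI A 1 ↔ ∃ v : Fin n → F, v ≠ 0 ∧ v ⬝ᵥ (A *ᵥ v) = 0 := by
  constructor
  · rintro ⟨b, hb, h⟩
    exact ⟨b 0, hb.ne_zero 0, h 0 0⟩
  · rintro ⟨v, hv, h⟩
    refine ⟨fun _ => v, ?_, fun _ _ => h⟩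
    rw [linearIndependent_unique_iff]
    exact hv

theorem exg {F : Type*} [Field F] (a b c : F) (h : ¬ (a = 0 ∧ b = 0 ∧ c = 0)) :
    ∃ g : Matrix (Fin 3) (Fin 3) F, g.det ≠ 0 ∧ a * g 0 0 + b * g 1 0 + c * g 2 0 = 0 ∧
      a * g 0 1 + b * g 1 1 + c * g 2 1 = 0 ∧ a * g 0 2 + b * g 1 2 + c * g 2 2 = 1 := by
  by_cases ha : a = 0
  · by_cases hb : b = 0
    · have hc : c ≠ 0 := fun hc => h ⟨ha, hb, hc⟩
      refine ⟨!![c, 0, 0; 0, c, 0; -a, -b, c⁻¹], ?_, ?_, ?_, ?_⟩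
      · rw [Matrix.det_fin_three]
        simp only [Matrix.cons_val, Matrix.of_apply]
        field_simp
        simpa using hc
      all_goals simp only [Matrix.cons_val, Matrix.of_apply]
      · ring
      · ring
      · field_simp
        ring
    · refine ⟨!![b, 0, 0; -a, -c, b⁻¹; 0, b, 0], ?_, ?_, ?_, ?_⟩
      · rw [Matrix.det_fin_three]
        simp only [Matrix.cons_val, Matrix.of_apply]
        field_simp
        simpa using hb
      all_goals simp only [Matrix.cons_val, Matrix.of_apply]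
      · ring
      · ring
      · field_simp
        ring
  · refine ⟨!![-b, -c, a⁻¹; a, 0, 0; 0, a, 0], ?_, ?_, ?_, ?_⟩
    · rw [Matrix.det_fin_three]
      simp only [Matrix.cons_val, Matrix.of_apply]
      field_simp
      simpa using ha
    all_goals simp only [Matrix.cons_val, Matrix.of_apply]
    · ring
    · ring
    · field_simp
      ring

theorem LL_low {F : Type*} [Field F] (g : Matrix (Fin 3) (Fin 3) F) (x : Fin 7 → F) :
    (LL g *ᵥ x) 4 = g⁻¹ 0 0 * x 4 + g⁻¹ 1 0 * x 5 + g⁻¹ 2 0 * x 6 ∧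
    (LL g *ᵥ x) 5 = g⁻¹ 0 1 * x 4 + g⁻¹ 1 1 * x 5 + g⁻¹ 2 1 * x 6 ∧
    (LL g *ᵥ x) 6 = g⁻¹ 0 2 * x 4 + g⁻¹ 1 2 * x 5 + g⁻¹ 2 2 * x 6 := by
  refine ⟨?_, ?_, ?_⟩ <;>
  · simp only [Matrix.mulVec, dotProduct, Fin.sum_univ_succ, LL]
    simp
    ring

theorem LL_top {F : Type*} [Field F] (g : Matrix (Fin 3) (Fin 3) F) (y : Fin 7 → F) :
    ((LL g)ᵀ *ᵥ y) 0 = g 0 0 * y 0 + g 1 0 * y 1 + g 2 0 * y 2 ∧
    ((LL g)ᵀ *ᵥ y) 1 = g 0 1 * y 0 + g 1 1 * y 1 + g 2 1 * y 2 := by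
  refine ⟨?_, ?_⟩ <;>
  · simp only [Matrix.mulVec, dotProduct, Fin.sum_univ_succ, LL, Matrix.transpose_apply]
    simp
    ring

theorem JJ_val {F : Type*} [Field F] (d : F) (x : Fin 7 → F) :
    x ⬝ᵥ (JJ d *ᵥ x) = 2 * (x 0 * x 4 + x 1 * x 5 + x 2 * x 6) + d * x 3 ^ 2 := by
  simp only [Matrix.mulVec, dotProduct, Fin.sum_univ_succ, JJ]
  simp
  ring

theorem pf_LOC (hLLV : T_LLV) (hQEV : T_QEV) : T_LOC := by
  intro F _ h2 q d hq hTI x hJ hQ hli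
  rw [LinearIndependent.pair_iff] at hli
  have hξ : ¬ (x 4 = 0 ∧ x 5 = 0 ∧ x 6 = 0) := by
    rintro ⟨h4, h5, h6⟩
    have := hli 1 0 (by simp [h4, h5, h6])
    exact one_ne_zero this.1
  obtain ⟨g, hg, e0, e1, e2⟩ := exg _ _ _ hξ
  have hgu : IsUnit g.det := isUnit_iff_ne_zero.2 hg
  have hgi : (g⁻¹)⁻¹ = g := Matrix.nonsing_inv_nonsing_inv g hgu
  obtain ⟨hJJ, hLL, -, hblk, -, -⟩ := hLLV F g hg
  obtain ⟨x', hx'⟩ : ∃ x', x' = LL g⁻¹ *ᵥ x := ⟨_, rfl⟩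
  have hx : LL g *ᵥ x' = x := by
    rw [hx', Matrix.mulVec_mulVec, hLL, Matrix.one_mulVec]
  have hlow := LL_low g⁻¹ x
  rw [hgi, ← hx'] at hlow
  obtain ⟨k4, k5, k6⟩ := hlow
  have x4 : x' 4 = 0 := by rw [k4, ← e0]; ring
  have x5 : x' 5 = 0 := by rw [k5, ← e1]; ring
  have x6 : x' 6 = 1 := by rw [k6, ← e2]; ring
  have hJ' : x' ⬝ᵥ (JJ d *ᵥ x') = 0 := by
    have := bil (JJ d) (LL g) x' x'
    rw [hJJ d, hx, hJ] at this
    exact this
  have hQ' : x' ⬝ᵥ (QL q g *ᵥ x') = 0 := by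
    have := bil q (LL g) x' x'
    rw [hx, hQ] at this
    exact this
  have x2 : x' 2 = -(d / 2) * x' 3 ^ 2 := by
    rw [JJ_val, x4, x5, x6] at hJ'
    have h3 : 2 * x' 2 = -(d * x' 3 ^ 2) := by linear_combination hJ'
    field_simp
    linear_combination h3
  obtain ⟨a, ha⟩ : ∃ a : Fin 3 → F, a = ![x' 0, x' 1, 1] := ⟨_, rfl⟩
  have hU : UU d (x' 3) *ᵥ a = x' := by
    ext i
    rw [ha]
    fin_cases i <;>
      simp [Matrix.mulVec, dotProduct, Fin.sum_univ_succ, UU, uv, x4, x5, x6, x2]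
  have haM : a ⬝ᵥ (gm (QL q g) d (x' 3) *ᵥ a) = 0 := by
    rw [gm_eq, bil, hU]
    exact hQ'
  obtain ⟨M, hM⟩ : ∃ M, M = gm (QL q g) d (x' 3) := ⟨_, rfl⟩
  have hqs : (QL q g).IsSymm := by
    rw [QL, Matrix.IsSymm, Matrix.transpose_mul, Matrix.transpose_mul, Matrix.transpose_transpose,
      hq.eq, Matrix.mul_assoc]
  obtain ⟨-, -, hent, hsym⟩ := hQEV F (QL q g) d
  have hMs := (hsym hqs).2 (x' 3)
  obtain ⟨m00, m11, m01⟩ := hent (x' 3)
  rw [← hM] at hMs m00 m11 m01 haM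
  -- the linear forms
  obtain ⟨η, hη⟩ : ∃ η : Fin 7 → F, η = q *ᵥ x := ⟨_, rfl⟩
  have hqx : QL q g *ᵥ x' = (LL g)ᵀ *ᵥ η := by
    rw [QL, ← Matrix.mulVec_mulVec, ← Matrix.mulVec_mulVec, hx, hη]
  have hl := LL_top g η
  obtain ⟨l0, hl0⟩ : ∃ l0, l0 = g 0 0 * η 0 + g 1 0 * η 1 + g 2 0 * η 2 := ⟨_, rfl⟩
  obtain ⟨l1, hl1⟩ : ∃ l1, l1 = g 0 1 * η 0 + g 1 1 * η 1 + g 2 1 * η 2 := ⟨_, rfl⟩
  rw [← hl0, ← hl1, ← hqx] at hl
  have hMa : ∀ i : Fin 3, (M *ᵥ a) i = ((UU d (x' 3))ᵀ *ᵥ (QL q g *ᵥ x')) i := by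
    intro i
    rw [hM, gm_eq, ← Matrix.mulVec_mulVec, ← Matrix.mulVec_mulVec, hU]
  have hMa0 : (M *ᵥ a) 0 = l0 := by
    rw [hMa, ← hl.1]
    simp [Matrix.mulVec, dotProduct, Fin.sum_univ_succ, UU, uv]
  have hMa1 : (M *ᵥ a) 1 = l1 := by
    rw [hMa, ← hl.2]
    simp [Matrix.mulVec, dotProduct, Fin.sum_univ_succ, UU, uv]
  have hM10 : M 1 0 = M 0 1 := hMs.apply 0 1
  have hM20 : M 2 0 = M 0 2 := hMs.apply 0 2
  have hM21 : M 2 1 = M 1 2 := hMs.apply 1 2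
  have f0 : M 0 0 * x' 0 + M 0 1 * x' 1 + M 0 2 = l0 := by
    rw [← hMa0, ha]
    simp [Matrix.mulVec, dotProduct, Fin.sum_univ_succ]
    ring
  have f1 : M 0 1 * x' 0 + M 1 1 * x' 1 + M 1 2 = l1 := by
    rw [← hMa1, ha]
    simp [Matrix.mulVec, dotProduct, Fin.sum_univ_succ, hM10]
    ring
  have f2 : M 0 2 * x' 0 + M 1 2 * x' 1 + M 2 2 = -(x' 0 * l0 + x' 1 * l1) := by
    have h3 : a ⬝ᵥ (M *ᵥ a) = x' 0 * (M *ᵥ a) 0 + x' 1 * (M *ᵥ a) 1 + (M *ᵥ a) 2 := by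
      rw [ha]
      simp [dotProduct, Fin.sum_univ_succ]
      ring
    rw [haM, hMa0, hMa1] at h3
    have h4 : (M *ᵥ a) 2 = M 0 2 * x' 0 + M 1 2 * x' 1 + M 2 2 := by
      rw [ha]
      simp [Matrix.mulVec, dotProduct, Fin.sum_univ_succ, hM20, hM21]
      ring
    rw [h4] at h3
    linear_combination -h3
  have hdet : M.det = -(M 0 0 * l1 ^ 2 - 2 * M 0 1 * l0 * l1 + M 1 1 * l0 ^ 2) := by
    have g0 : M 0 2 = l0 - M 0 0 * x' 0 - M 0 1 * x' 1 := by linear_combination f0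
    have g1 : M 1 2 = l1 - M 0 1 * x' 0 - M 1 1 * x' 1 := by linear_combination f1
    have g2 : M 2 2 = -(x' 0 * l0 + x' 1 * l1) - M 0 2 * x' 0 - M 1 2 * x' 1 := by
      linear_combination f2
    rw [Matrix.det_fin_three, hM10, hM20, hM21, g2, g0, g1]
    ring
  -- the vector v
  have hl01 : ¬ (l0 = 0 ∧ l1 = 0) := by
    rintro ⟨h0, h1⟩
    obtain ⟨c, hc⟩ : ∃ c, c = g 0 2 * η 0 + g 1 2 * η 1 + g 2 2 * η 2 := ⟨_, rfl⟩
    have h3 : (![η 0 - c * x 4, η 1 - c * x 5, η 2 - c * x 6] : Fin 3 → F) ᵥ* g = 0 := by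
      ext i
      fin_cases i
      · simp [Matrix.vecMul, dotProduct, Fin.sum_univ_succ]
        linear_combination h0 - hl0 - c * e0
      · simp [Matrix.vecMul, dotProduct, Fin.sum_univ_succ]
        linear_combination h1 - hl1 - c * e1
      · simp [Matrix.vecMul, dotProduct, Fin.sum_univ_succ]
        linear_combination -hc - c * e2
    have h4 := Matrix.eq_zero_of_vecMul_eq_zero hg h3
    have h5 : ∀ i : Fin 3, (![η 0 - c * x 4, η 1 - c * x 5, η 2 - c * x 6] : Fin 3 → F) i = 0 :=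
      fun i => congrFun h4 i
    have h6 := h5 0
    have h7 := h5 1
    have h8 := h5 2
    simp at h6 h7 h8
    have h9 := hli (-c) 1 (by
      rw [← hη]
      ext i
      fin_cases i
      · simp
        linear_combination h6
      · simp
        linear_combination h7
      · simp
        linear_combination h8)
    exact one_ne_zero h9.2
  have hv0 : g *ᵥ ![l1, -l0, 0] ≠ 0 := by
    intro h3
    have h4 := Matrix.eq_zero_of_mulVec_eq_zero hg h3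
    have h5 := congrFun h4 0
    have h6 := congrFun h4 1
    simp at h5 h6
    exact hl01 ⟨h6, h5⟩
  have hvb : (g *ᵥ ![l1, -l0, 0]) ⬝ᵥ (blk q *ᵥ (g *ᵥ ![l1, -l0, 0])) ≠ 0 := fun h3 =>
    hTI ((TI_one _).2 ⟨_, hv0, h3⟩)
  rw [← bil, ← hblk q] at hvb
  refine ⟨g, x' 3, hg, ?_, ?_⟩
  · rw [← hM, hdet]
    intro h3
    refine hvb ?_
    have b00 : blk (QL q g) 0 0 = M 0 0 := m00.symm
    have b11 : blk (QL q g) 1 1 = M 1 1 := m11.symm
    have b01 : blk (QL q g) 0 1 = M 0 1 := m01.symm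
    have b10 : blk (QL q g) 1 0 = M 0 1 := by
      rw [← b01]
      exact (hsym hqs).1.apply 0 1
    simp [Matrix.mulVec, dotProduct, Fin.sum_univ_succ, b00, b11, b01, b10]
    linear_combination -h3
  · rw [← hM]
    refine (TI_one _).2 ⟨a, ?_, haM⟩
    intro h3
    have h4 := congrFun h3 2
    rw [ha] at h4
    simp at h4

end Pool.Agent.H4.N6F
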